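import Pool.Agent.Helper64.PC.UApi

/-!
# Normal form of a counterexample
-/

namespace Pool.Agent.Helper34.PC

open Pool.Agent.Helper64.PC Set

section

variable {P : Type} [Preorder P]

theorem push_fd_and {A B : Set P} {q : P} :
    Fd {r | Fd A r ∧ Fd B r} q ↔ Fd A q ∧ Fd B q := by
  have h := fd_iff_mem (A := {r : P | Fd A r ∧ Fd B r}) (p := q)
    (fun p q h hq => ⟨h.1.mono hq, h.2.mono hq⟩)
    (fun p h => ⟨Fd.dense fun q hq => (h q hq).imp fun r hr => ⟨hr.1, hr.2.1⟩,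
      Fd.dense fun q hq => (h q hq).imp fun r hr => ⟨hr.1, hr.2.2⟩⟩)
  exact h

theorem push_fd_all {X : ℕ → Set P} {m : ℕ} {q : P} :
    Fd {r | ∀ k < m, Fd (X k) r} q ↔ ∀ k < m, Fd (X k) q := by
  have h := fd_iff_mem (A := {r : P | ∀ k < m, Fd (X k) r}) (p := q)
    (fun p q h hq k hk => (h k hk).mono hq)
    (fun p h k hk => Fd.dense fun q hq => (h q hq).imp fun r hr => ⟨hr.1, hr.2 k hk⟩)
  exact h

theorem push_fin (n : ℕ) (D : ℕ → P → Prop) (hm : ∀ k p q, D k p → q ≤ p → D k q)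
    (hd : ∀ k p, ∃ q ≤ p, D k q) : ∀ p, ∃ q ≤ p, ∀ k < n, D k q := by
  induction n with
  | zero => exact fun p => ⟨p, le_rfl, fun k hk => absurd hk (Nat.not_lt_zero k)⟩
  | succ n ih =>
    intro p
    obtain ⟨q, hq, h1⟩ := ih p
    obtain ⟨r, hr, h2⟩ := hd n q
    refine ⟨r, hr.trans hq, fun k hk => ?_⟩
    rcases Nat.lt_succ_iff_lt_or_eq.1 hk with hk | rfl
    · exact hm k q r (h1 k hk) hr
    · exact h2

theorem push_fg_congr {A B : ℕ → Prop} [DecidablePred A] [DecidablePred B] (a : ℕ)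
    (h : ∀ b ≤ a, (A b ↔ B b)) : Nat.findGreatest A a = Nat.findGreatest B a := by
  induction a with
  | zero => rfl
  | succ a ih =>
    rw [Nat.findGreatest_succ, Nat.findGreatest_succ, ih fun b hb => h b (Nat.le_succ_of_le hb)]
    have h1 := h (a + 1) le_rfl
    by_cases h2 : A (a + 1)
    · rw [if_pos h2, if_pos (h1.1 h2)]
    · rw [if_neg h2, if_neg fun h3 => h2 (h1.2 h3)]

/-- minimum of the first entries -/
def push_n : ℕ → ℕ × List ℕ → ℕ
  | 0, t => t.2.getD 0 0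
  | k + 1, t => min (push_n k t) (t.2.getD (k + 1) 0)

theorem push_n_le (k : ℕ) (t : ℕ × List ℕ) : push_n k t ≤ t.2.getD k 0 := by
  cases k with
  | zero => exact le_rfl
  | succ k => exact min_le_right _ _

theorem push_n_val (k i j : ℕ) (g : ℕ → ℕ) (hg : ∀ k, g (k + 1) ≤ g k) (hk : k < i) :
    push_n k (j, (List.range i).map g) = g k := by
  have hd : ∀ l < i, ((List.range i).map g).getD l 0 = g l := by
    intro l hl
    rw [List.getD_eq_getElem _ _ (by simpa using hl)]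
    simp
  induction k with
  | zero => exact hd 0 hk
  | succ k ih =>
    show min (push_n k (j, (List.range i).map g)) (((List.range i).map g).getD (k + 1) 0) = _
    rw [ih (Nat.lt_of_succ_lt hk), hd _ hk]
    exact min_eq_right (hg k)

variable {p₀ : P} (C : CutData P p₀)

/-- the decisions needed at `i` -/
def PushD (r : P) (i a : ℕ) : Prop :=
  ∀ l < i, ∀ v ≤ a, r ∈ C.R l i v ∨ ∀ s ≤ r, s ∉ C.R l i v

open Classical in
/-- the value of `n_k(i)` decided by `r` -/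
noncomputable def push_nn (r : P) (i a k : ℕ) : ℕ :=
  Nat.findGreatest (fun b => ∀ v ≤ b, ∀ l ≤ k, r ∈ C.R l i v) a

theorem push_nn_anti (r : P) (i a k : ℕ) : push_nn C r i a (k + 1) ≤ push_nn C r i a k := by
  classical
  unfold push_nn
  by_cases h0 : Nat.findGreatest (fun b => ∀ v ≤ b, ∀ l ≤ k + 1, r ∈ C.R l i v) a = 0
  · rw [h0]
    exact Nat.zero_le _
  · have h1 := Nat.findGreatest_of_ne_zero rfl h0
    exact Nat.le_findGreatest (Nat.findGreatest_le a)
      fun v hv l hl => h1 v hv l (Nat.le_succ_of_le hl)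

variable {C}

theorem PushD.mono {r q : P} {i a : ℕ} (h : PushD C r i a) (hq : q ≤ r) : PushD C q i a := by
  intro l hl v hv
  rcases h l hl v hv with h1 | h1
  · exact Or.inl (C.R_mono _ _ _ _ _ h1 hq)
  · exact Or.inr fun s hs => h1 s (hs.trans hq)

theorem PushD.of {r q : P} {i a : ℕ} (h : PushD C r i a) (hq : q ≤ r) {l v : ℕ} (hl : l < i)
    (hv : v ≤ a) (h1 : q ∈ C.R l i v) : r ∈ C.R l i v := by
  rcases h l hl v hv with h2 | h2
  · exact h2
  · exact absurd h1 (h2 q hq)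

theorem push_nn_mono {r q : P} {i a k : ℕ} (h : PushD C r i a) (hq : q ≤ r) (hk : k < i) :
    push_nn C q i a k = push_nn C r i a k := by
  classical
  unfold push_nn
  apply push_fg_congr
  intro b hb
  constructor
  · intro h1 v hv l hl
    exact h.of hq (lt_of_le_of_lt hl hk) (hv.trans hb) (h1 v hv l hl)
  · intro h1 v hv l hl
    exact C.R_mono _ _ _ _ _ (h1 v hv l hl) hq

theorem push_dense (i a : ℕ) (p : P) : ∃ q ≤ p, PushD C q i a := by
  have h1 : ∀ l (p : P), ∃ q ≤ p, ∀ v < a + 1, (q ∈ C.R l i v ∨ ∀ s ≤ q, s ∉ C.R l i v) := by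
    intro l
    apply push_fin (a + 1) (fun v q => q ∈ C.R l i v ∨ ∀ s ≤ q, s ∉ C.R l i v)
    · rintro v p q (h | h) hq
      · exact Or.inl (C.R_mono _ _ _ _ _ h hq)
      · exact Or.inr fun s hs => h s (hs.trans hq)
    · intro v p
      by_cases h : ∃ s ≤ p, s ∈ C.R l i v
      · obtain ⟨s, hs, h⟩ := h
        exact ⟨s, hs, Or.inl h⟩
      · refine ⟨p, le_rfl, Or.inr fun s hs h2 => h ⟨s, hs, h2⟩⟩
  obtain ⟨q, hq, h2⟩ := push_fin i
    (fun l q => ∀ v < a + 1, (q ∈ C.R l i v ∨ ∀ s ≤ q, s ∉ C.R l i v))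
    (by
      intro l p q h hq v hv
      rcases h v hv with h | h
      · exact Or.inl (C.R_mono _ _ _ _ _ h hq)
      · exact Or.inr fun s hs => h s (hs.trans hq)) h1 p
  exact ⟨q, hq, fun l hl v hv => h2 l hl v (Nat.lt_succ_of_le hv)⟩

variable (C)

/-- the name of the map from `ℕ` to `ℕ × List ℕ` -/
noncomputable def push_θ : FName P p₀ ℕ (ℕ × List ℕ) where
  V i t r := ∃ a j, C.u.V i a r ∧ C.π.V i j r ∧ PushD C r i a ∧
    t = (j, (List.range i).map (push_nn C r i a))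
  mono := by
    rintro i t r q ⟨a, j, h1, h2, h3, h4⟩ hq
    refine ⟨a, j, C.u.mono _ _ _ _ h1 hq, C.π.mono _ _ _ _ h2 hq, h3.mono hq, ?_⟩
    rw [h4]
    congr 1
    apply List.map_congr_left
    intro k hk
    exact (push_nn_mono h3 hq (List.mem_range.1 hk)).symm
  total := by
    intro i p hp
    obtain ⟨q, hq, a, ha⟩ := C.u.total i p hp
    obtain ⟨r, hr, j, hj⟩ := C.π.total i q (hq.trans hp)
    obtain ⟨s, hs, h⟩ := push_dense (C := C) i a r
    exact ⟨s, hs.trans (hr.trans hq), _, a, j, C.u.mono _ _ _ _ ha (hs.trans hr),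
      C.π.mono _ _ _ _ hj hs, h, rfl⟩
  uniq := by
    rintro i t t' p hp ⟨a, j, h1, h2, h3, h4⟩ ⟨a', j', h1', h2', h3', h4'⟩
    rw [h4, h4', C.u.uniq i a a' p hp h1 h1', C.π.uniq i j j' p hp h2 h2']

variable {C}

/-- zero is in the cut -/
theorem push_zero {p : P} (hp : p ≤ p₀) (m : ℕ) :
    C.U.W (fun i => {r | ∀ l < m, Fd {r' | r' ∈ C.R l i 0} r}) p := by
  refine C.U.all hp m fun l _ => ?_
  have h := C.cut_sub (fun _ => 0) p hp (FName.const p fun _ => 0) (by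
    rintro i q _ a j ha _
    rw [ha]) l
  refine C.U.up_sub hp h fun i r hr => ?_
  obtain ⟨a, ha, h1⟩ := hr
  rw [show a = 0 from ha] at h1
  exact h1

/-- the greatest element satisfies the property -/
theorem push_spec {r : P} {i a k : ℕ} (h : PushD C r i a) (hk : k < i)
    (h0 : ∀ l < k + 1, Fd {r' | r' ∈ C.R l i 0} r) :
    ∀ v ≤ push_nn C r i a k, ∀ l ≤ k, r ∈ C.R l i v := by
  classical
  unfold push_nn
  apply Nat.findGreatest_spec (P := fun b => ∀ v ≤ b, ∀ l ≤ k, r ∈ C.R l i v) (Nat.zero_le a)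
  intro v hv l hl
  rw [Nat.le_zero.1 hv]
  obtain ⟨s, hs, b, hb, hsb⟩ := h0 l (Nat.lt_succ_of_le hl) r le_rfl
  exact h.of hs (lt_of_le_of_lt hl hk) (Nat.zero_le _) (C.R_mono _ _ _ _ _ hb hsb)

theorem push_large_aux (f : ℕ → ℕ) (k : ℕ) (q : P) (hq : q ≤ p₀) :
    ¬ C.U.W (fun i => {r | ∃ t, (push_θ C).V i t r ∧ push_n k t ≤ f t.1}) q := by
  classical
  intro hX
  -- the function `min (n_k) (f π) + 1`
  let x : FName P q ℕ ℕ :=
    { V := fun i c r => ∃ t, (push_θ C).V i t r ∧ c = min (push_n k t) (f t.1) + 1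
      mono := by
        rintro i c r s ⟨t, h1, h2⟩ hs
        exact ⟨t, (push_θ C).mono _ _ _ _ h1 hs, h2⟩
      total := by
        intro i p hp
        obtain ⟨r, hr, t, ht⟩ := (push_θ C).total i p (hp.trans hq)
        exact ⟨r, hr, _, t, ht, rfl⟩
      uniq := by
        rintro i c c' p hp ⟨t, h1, h2⟩ ⟨t', h1', h2'⟩
        rw [h2, h2', (push_θ C).uniq i t t' p (hp.trans hq) h1 h1'] }
  have hx : ∀ l, C.U.W (fun i => {r | ∃ a, x.V i a r ∧ r ∈ C.R l i a}) q := by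
    apply C.cut_sub (fun j => f j + 1) q hq x
    rintro i s hs c j ⟨t, ⟨a, j', h1, h2, h3, h4⟩, h5⟩ hj
    have h6 : j' = j := C.π.uniq i j' j s (hs.trans hq) h2 hj
    rw [h5, h4, ← h6]
    exact Nat.succ_le_succ (min_le_right _ _)
  have hx' := C.U.all (X := fun l i => {r | ∃ a, x.V i a r ∧ r ∈ C.R l i a}) hq (k + 1)
    fun l _ => hx l
  have h0 := push_zero (C := C) hq (k + 1)
  have hu : C.U.W (fun i => {r | ∃ a j, C.u.V i a r ∧ C.π.V i j r ∧ f j + 1 < a}) q := by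
    refine C.U.of_not hq (fun q' hq' => C.u_not (fun j => f j + 1) q' (hq'.trans hq)) ?_
    intro i q' hq'
    obtain ⟨r, hr, a, ha⟩ := C.u.total i q' (hq'.trans hq)
    obtain ⟨s, hs, j, hj⟩ := C.π.total i r (hr.trans (hq'.trans hq))
    have ha' := C.u.mono _ _ _ _ ha hs
    refine ⟨s, hs.trans hr, ?_⟩
    rcases le_or_gt a (f j + 1) with h | h
    · exact Or.inl (Fd.of_mem ⟨a, j, ha', hj, h⟩ le_rfl)
    · exact Or.inr (Fd.of_mem ⟨a, j, ha', hj, h⟩ le_rfl)
  have hk : C.U.W (fun i => {_r | k + 1 ≤ i}) q := C.U.mono _ _ _ (C.cof (k + 1)) hq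
  refine C.U.contra hq (C.U.and hq (C.U.and hq hX hx') h0) (C.U.and hq hu hk) ?_
  intro i q' hq' ha hb
  rw [push_fd_and, push_fd_and, push_fd_all] at ha
  rw [push_fd_and, fd_const] at hb
  obtain ⟨⟨ha1, ha2⟩, ha3⟩ := ha
  obtain ⟨hb1, hb2⟩ := hb
  rw [push_fd_all] at ha3
  obtain ⟨r0, hr0, b, ⟨t, ht, htn⟩, hrb⟩ := ha1 q' le_rfl
  obtain ⟨a, j, h1, h2, h3, h4⟩ := (push_θ C).mono _ _ _ _ ht hrb
  have hr0' : r0 ≤ p₀ := hr0.trans (hq'.trans hq)
  obtain ⟨s, hs, b', ⟨a', j', hu1, hu2, hu3⟩, hsb⟩ := hb1 r0 hr0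
  have ea : a' = a := C.u.uniq i a' a s (hs.trans hr0') (C.u.mono _ _ _ _ hu1 hsb)
    (C.u.mono _ _ _ _ h1 hs)
  have ej : j' = j := C.π.uniq i j' j s (hs.trans hr0') (C.π.mono _ _ _ _ hu2 hsb)
    (C.π.mono _ _ _ _ h2 hs)
  subst ea
  subst ej
  have hval : push_n k t = push_nn C r0 i a' k := by
    rw [h4]
    exact push_n_val k i j' _ (push_nn_anti C r0 i a') hb2
  have ht1 : t.1 = j' := by rw [h4]
  rw [ht1, hval] at htn
  have hc : push_nn C r0 i a' k + 1 ≤ a' := by omega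
  have hspec := push_spec h3 hb2 fun l hl => (ha3 l hl).mono hr0
  have hle : push_nn C r0 i a' k + 1 ≤ push_nn C r0 i a' k := by
    conv_rhs => unfold push_nn
    refine Nat.le_findGreatest hc ?_
    intro v hv l hl
    rcases Nat.le_succ_iff.1 hv with hv | hv
    · exact hspec v hv l hl
    · obtain ⟨s', hs', b2, ⟨c, ⟨t', ht', hct⟩, hcR⟩, hsb'⟩ := ha2 l (Nat.lt_succ_of_le hl) r0 hr0
      have et : t' = t := (push_θ C).uniq i t' t s' (hs'.trans hr0')
        ((push_θ C).mono _ _ _ _ ht' hsb') ((push_θ C).mono _ _ _ _ ht (hs'.trans hrb))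
      have ec : c = v := by
        rw [hct, et, hval, ht1, min_eq_left htn, hv]
      rw [ec] at hcR
      exact h3.of hs' (lt_of_le_of_lt hl hb2) (by omega) (C.R_mono _ _ _ _ _ hcR hsb')
  omega

end

theorem st_push (hmap : ST_map) : ST_push := by
  intro P _ p₀ C
  obtain ⟨U', hU'⟩ := hmap P p₀ ℕ (ℕ × List ℕ) C.U (push_θ C)
  refine ⟨{
    I := ℕ × List ℕ
    cnt := inferInstance
    U := U'
    π := Prod.fst
    n := push_n
    anti := fun k t => min_le_left _ _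
    fin := fun t => ⟨t.2.length, Nat.le_zero.1 (by
      have h := push_n_le t.2.length t
      rwa [List.getD_eq_default _ _ le_rfl] at h)⟩
    small := ?_
    large := ?_
    cut := ?_ }⟩
  · intro j p hp h
    rw [hU'] at h
    refine C.small j p hp (C.U.up_sub hp h ?_)
    rintro i r ⟨t, ⟨a, j', h1, h2, h3, h4⟩, h5⟩
    rw [fd_const] at h5
    have h6 : j' = j := by rw [← h5, h4]
    rw [← h6]
    exact h2
  · intro f k
    rw [hU']
    refine C.U.of_not le_rfl (fun q hq => push_large_aux f k q hq) ?_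
    intro i q hq
    obtain ⟨r, hr, t, ht⟩ := (push_θ C).total i q hq
    refine ⟨r, hr, ?_⟩
    rcases le_or_gt (push_n k t) (f t.1) with h | h
    · exact Or.inl (Fd.of_mem ⟨t, ht, h⟩ le_rfl)
    · exact Or.inr (Fd.of_mem ⟨t, ht, (fd_const _ _).2 h⟩ le_rfl)
  · intro p hp z hz
    let x : FName P p ℕ ℕ :=
      { V := fun i a r => ∃ t, (push_θ C).V i t r ∧ z.V t a r
        mono := by
          rintro i c r s ⟨t, h1, h2⟩ hs
          exact ⟨t, (push_θ C).mono _ _ _ _ h1 hs, z.mono _ _ _ _ h2 hs⟩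
        total := by
          intro i q hq
          obtain ⟨r, hr, t, ht⟩ := (push_θ C).total i q (hq.trans hp)
          obtain ⟨s, hs, a, ha⟩ := z.total t r (hr.trans hq)
          exact ⟨s, hs.trans hr, a, t, (push_θ C).mono _ _ _ _ ht hs, ha⟩
        uniq := by
          rintro i c c' q hq ⟨t, h1, h2⟩ ⟨t', h1', h2'⟩
          have h3 := (push_θ C).uniq i t t' q (hq.trans hp) h1 h1'
          subst h3
          exact z.uniq t c c' q hq h2 h2' }
    have hx : ∀ k, C.U.W (fun i => {r | ∃ a, x.V i a r ∧ r ∈ C.R k i a}) p := by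
      intro k
      have h1 := hz k
      rw [hU'] at h1
      have h0 := push_zero (C := C) hp (k + 1)
      have hk : C.U.W (fun i => {_r | k + 1 ≤ i}) p := C.U.mono _ _ _ (C.cof (k + 1)) hp
      refine C.U.inter _ _ _ p hp h1 (C.U.and hp h0 hk) ?_
      intro i q hq ha hb
      rw [push_fd_and, fd_const] at hb
      obtain ⟨hb1, hb2⟩ := hb
      rw [push_fd_all] at hb1
      intro r hr
      obtain ⟨s, hs, b, ⟨t, ht, htz⟩, hsb⟩ := ha r hr
      obtain ⟨s', hs', b', ⟨a, haz, han⟩, hsb'⟩ := htz s hsb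
      have hth := (push_θ C).mono _ _ _ _ ht (hs'.trans hsb)
      obtain ⟨au, j, h2, h3, h4, h5⟩ := id hth
      have hval : push_n k t = push_nn C s' i au k := by
        rw [h5]
        exact push_n_val k i j _ (push_nn_anti C s' i au) hb2
      rw [hval] at han
      have hspec := push_spec h4 hb2 fun l hl => (hb1 l hl).mono (hs'.trans (hs.trans hr))
      exact ⟨s', hs'.trans hs, s', ⟨a, ⟨t, hth, z.mono _ _ _ _ haz hsb'⟩, hspec a han k le_rfl⟩,
        le_rfl⟩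
    obtain ⟨q, hq, f, hf⟩ := C.cut_sup p hp x hx
    refine ⟨q, hq, f, ?_⟩
    rw [hU']
    refine C.U.up (hq.trans hp) hf ?_
    intro i q' hq' ha r hr
    obtain ⟨s, hs, b, ⟨a, j, ⟨t, ht, hza⟩, hj, haj⟩, hsb⟩ := ha r hr
    have hsp : s ≤ p := hs.trans (hr.trans (hq'.trans hq))
    have ht' := (push_θ C).mono _ _ _ _ ht hsb
    obtain ⟨au, j', h2, h3, h4, h5⟩ := id ht'
    have hjj : j' = j := C.π.uniq i j' j s (hsp.trans hp) h3 (C.π.mono _ _ _ _ hj hsb)
    refine ⟨s, hs, s, ⟨t, ht', Fd.of_mem ⟨a, z.mono _ _ _ _ hza hsb, ?_⟩ le_rfl⟩, le_rfl⟩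
    rw [h5]
    show a ≤ f j'
    rw [hjj]
    exact haj

end Pool.Agent.Helper34.PC
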