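import Pool.Agent.Helper97.PC.Defs

/-!
# MP_b1e538: row SC, scaling
-/

open MeasureTheory

namespace Helper34.PC

noncomputable section

open Helper97.PC

lemma int_sc {E : Type*} [NormedAddCommGroup E] [NormedSpace ℝ E] (g : R3 → E) (l : ℝ) (hl : 0 < l) :
    ∫ x, g (l • x) = (l ^ 3)⁻¹ • ∫ x, g x := by
  have h := Measure.integral_comp_smul (volume : Measure R3) g l
  rw [h, finrank_euclideanSpace_fin, abs_of_pos (by positivity)]

lemma memLp_sc {E : Type*} [NormedAddCommGroup E] (f : R3 → E) (p : ENNReal)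
    (h : MemLp f p volume) (l : ℝ) (hl : 0 < l) : MemLp (fun x => f (l • x)) p volume := by
  have h1 : Measure.map (fun x : R3 => l • x) volume
      = ENNReal.ofReal |(l ^ Module.finrank ℝ R3)⁻¹| • (volume : Measure R3) :=
    Measure.map_addHaar_smul (volume : Measure R3) hl.ne'
  have h2 : MemLp f p (Measure.map (fun x : R3 => l • x) volume) := by
    rw [h1]
    exact h.smul_measure ENNReal.ofReal_ne_top
  exact h2.comp_of_map (measurable_const_smul l).aemeasurable

/-- The rescaled test function. -/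
lemma test_sc (φ : R3 → ℝ) (h : Test φ) (l : ℝ) (hl : 0 < l) : Test (fun y => φ (l⁻¹ • y)) := by
  refine ⟨h.1.comp (contDiff_const_smul l⁻¹), ?_⟩
  have := h.2.comp_homeomorph (Homeomorph.smulOfNeZero l⁻¹ (inv_ne_zero hl.ne'))
  exact this

lemma pd_sc (φ : R3 → ℝ) (h : Test φ) (l : ℝ) (j : Fin 3) (y : R3) :
    pd j (fun y => φ (l⁻¹ • y)) y = l⁻¹ * pd j φ (l⁻¹ • y) := by
  unfold pd
  have hd : DifferentiableAt ℝ φ (l⁻¹ • y) := (h.1.differentiable (by simp)) _
  have h1 : HasFDerivAt (fun y : R3 => l⁻¹ • y) (l⁻¹ • ContinuousLinearMap.id ℝ R3) y :=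
    (hasFDerivAt_id y).const_smul l⁻¹
  have h2 := hd.hasFDerivAt.comp y h1
  have h3 : fderiv ℝ (fun y => φ (l⁻¹ • y)) y
      = (fderiv ℝ φ (l⁻¹ • y)).comp (l⁻¹ • ContinuousLinearMap.id ℝ R3) := h2.fderiv
  rw [h3]
  simp

lemma pd_sc' (φ : R3 → ℝ) (h : Test φ) (l : ℝ) (hl : 0 < l) (j : Fin 3) (x : R3) :
    pd j φ x = l * pd j (fun y => φ (l⁻¹ • y)) (l • x) := by
  rw [pd_sc φ h l, smul_smul, inv_mul_cancel₀ hl.ne', one_smul]
  field_simp

lemma arg_sc (φ : R3 → ℝ) (l : ℝ) (hl : 0 < l) (x : R3) :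
    φ x = (fun y => φ (l⁻¹ • y)) (l • x) := by
  simp [smul_smul, inv_mul_cancel₀ hl.ne']

lemma weak_sc {E : Type*} [NormedAddCommGroup E] [NormedSpace ℝ E] (j : Fin 3) (f g : R3 → E)
    (h : WeakD j f g) (l : ℝ) (hl : 0 < l) (c : ℝ) :
    WeakD j (fun x => c • f (l • x)) (fun x => (c * l) • g (l • x)) := by
  intro φ hφ
  have h0 := h (fun y => φ (l⁻¹ • y)) (test_sc φ hφ l hl)
  have e1 : ∫ x, pd j φ x • c • f (l • x)
      = (l ^ 3)⁻¹ • (c * l) • ∫ x, pd j (fun y => φ (l⁻¹ • y)) x • f x := by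
    rw [← integral_smul, ← int_sc (fun x => (c * l) • pd j (fun y => φ (l⁻¹ • y)) x • f x) l hl]
    refine integral_congr_ae (Filter.Eventually.of_forall fun x => ?_)
    simp only
    rw [pd_sc' φ hφ l hl j x, smul_smul, smul_smul]
    congr 1
    ring
  have e2 : ∫ x, φ x • (c * l) • g (l • x)
      = (l ^ 3)⁻¹ • (c * l) • ∫ x, (fun y => φ (l⁻¹ • y)) x • g x := by
    rw [← integral_smul, ← int_sc (fun x => (c * l) • (fun y => φ (l⁻¹ • y)) x • g x) l hl]
    refine integral_congr_ae (Filter.Eventually.of_forall fun x => ?_)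
    simp only
    rw [smul_smul, smul_smul, smul_smul, inv_mul_cancel₀ hl.ne', one_smul]
    congr 1
    ring
  rw [e1, e2, h0]
  simp only [smul_neg]

lemma Pi_sc (ψ : R3 → Sp) (D : Fin 3 → R3 → Sp) (A : Fin 3 → R3 → ℝ) (l c : ℝ) (x : R3) :
    Pi (fun x => c • ψ (l • x)) (fun j x => (c * l) • D j (l • x)) (fun j x => l * A j (l • x)) x
      = (c * l) • Pi ψ D A (l • x) := by
  unfold Pi
  rw [Finset.smul_sum]
  refine Finset.sum_congr rfl fun j _ => ?_
  have e : (-Complex.I) • (c * l) • D j (l • x) - ((l * A j (l • x) : ℝ) : ℂ) • c • ψ (l • x)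
      = ((c * l : ℝ) : ℂ) • ((-Complex.I) • D j (l • x) - (A j (l • x) : ℂ) • ψ (l • x)) := by
    ext i
    simp
    ring
  simp only
  rw [e, map_smul, Complex.coe_smul]

theorem SC : ST_SC := by
  intro ψ D A B l hl hC
  obtain ⟨hA, hn⟩ := hC
  set c : ℝ := Real.sqrt (l ^ 3) with hc
  have hc2 : c ^ 2 = l ^ 3 := Real.sq_sqrt (by positivity)
  refine ⟨fun x => c • ψ (l • x), fun j x => (c * l) • D j (l • x), fun j x => l * A j (l • x),
    fun j x => l ^ 2 * B j (l • x), ⟨?_, ?_⟩, ?_, ?_, ?_⟩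
  · refine ⟨?_, ?_, ?_, ?_, ?_, ?_, ?_, ?_, ?_⟩
    · exact (memLp_sc ψ 2 hA.psiL2 l hl).const_smul c
    · intro j
      exact (memLp_sc (D j) 2 (hA.derL2 j) l hl).const_smul (c * l)
    · intro j
      exact weak_sc j ψ (D j) (hA.der j) l hl c
    · intro j
      exact (memLp_sc (A j) 6 (hA.potL6 j) l hl).const_mul l
    · intro φ hφ
      have h0 := hA.div (fun y => φ (l⁻¹ • y)) (test_sc φ hφ l hl)
      have e1 : ∫ x, ∑ j, pd j φ x * (l * A j (l • x))
          = (l ^ 3)⁻¹ • (l ^ 2) • ∫ x, ∑ j, pd j (fun y => φ (l⁻¹ • y)) x * A j x := by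
        rw [← integral_smul,
          ← int_sc (fun x => (l ^ 2) • ∑ j, pd j (fun y => φ (l⁻¹ • y)) x * A j x) l hl]
        refine integral_congr_ae (Filter.Eventually.of_forall fun x => ?_)
        simp only
        rw [smul_eq_mul, Finset.mul_sum]
        refine Finset.sum_congr rfl fun j _ => ?_
        rw [pd_sc' φ hφ l hl j x]
        ring
      rw [e1, h0]
      simp
    · intro j
      exact (memLp_sc (B j) 2 (hA.magL2 j) l hl).const_mul (l ^ 2)
    · intro j φ hφ
      have h0 := hA.curl j (fun y => φ (l⁻¹ • y)) (test_sc φ hφ l hl)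
      have e1 : ∫ x, (pd (j + 1) φ x * (l * A (j + 2) (l • x))
            - pd (j + 2) φ x * (l * A (j + 1) (l • x)))
          = (l ^ 3)⁻¹ • (l ^ 2) • ∫ x, (pd (j + 1) (fun y => φ (l⁻¹ • y)) x * A (j + 2) x
            - pd (j + 2) (fun y => φ (l⁻¹ • y)) x * A (j + 1) x) := by
        rw [← integral_smul,
          ← int_sc (fun x => (l ^ 2) • (pd (j + 1) (fun y => φ (l⁻¹ • y)) x * A (j + 2) x
            - pd (j + 2) (fun y => φ (l⁻¹ • y)) x * A (j + 1) x)) l hl]
        refine integral_congr_ae (Filter.Eventually.of_forall fun x => ?_)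
        simp only
        rw [smul_eq_mul, pd_sc' φ hφ l hl (j + 1) x, pd_sc' φ hφ l hl (j + 2) x]
        ring
      have e2 : ∫ x, φ x * (l ^ 2 * B j (l • x))
          = (l ^ 3)⁻¹ • (l ^ 2) • ∫ x, (fun y => φ (l⁻¹ • y)) x * B j x := by
        rw [← integral_smul,
          ← int_sc (fun x => (l ^ 2) • ((fun y => φ (l⁻¹ • y)) x * B j x)) l hl]
        refine integral_congr_ae (Filter.Eventually.of_forall fun x => ?_)
        simp only
        rw [smul_eq_mul, smul_smul, inv_mul_cancel₀ hl.ne', one_smul]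
        ring
      rw [e1, e2, h0]
      simp only [smul_neg]
    · have e : Pi (fun x => c • ψ (l • x)) (fun j x => (c * l) • D j (l • x))
          (fun j x => l * A j (l • x)) = fun x => (c * l) • Pi ψ D A (l • x) :=
        funext fun x => Pi_sc ψ D A l c x
      rw [e]
      exact (memLp_sc (Pi ψ D A) 2 hA.kinL2 l hl).const_smul (c * l)
    · have e : (fun x : R3 => ‖c • ψ (l • x)‖ ^ 2 / ‖x‖)
          = fun x => (c ^ 2 * l) * (‖ψ (l • x)‖ ^ 2 / ‖l • x‖) := by
        funext x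
        rw [norm_smul, norm_smul, mul_pow, Real.norm_eq_abs, Real.norm_eq_abs, sq_abs,
          abs_of_pos hl]
        field_simp
      rw [e]
      exact (hA.couL1.comp_smul hl.ne').const_mul _
  · unfold nrm
    have e : ∀ x : R3, ‖c • ψ (l • x)‖ ^ 2 = (fun y => c ^ 2 * ‖ψ y‖ ^ 2) (l • x) := by
      intro x
      simp only
      rw [norm_smul, mul_pow, Real.norm_eq_abs, sq_abs]
    simp only [e]
    rw [int_sc (fun y => c ^ 2 * ‖ψ y‖ ^ 2) l hl, integral_const_mul]
    unfold nrm at hn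
    rw [hn, hc2, smul_eq_mul]
    field_simp
  · unfold kin
    have e : ∀ x : R3, ‖Pi (fun x => c • ψ (l • x)) (fun j x => (c * l) • D j (l • x))
          (fun j x => l * A j (l • x)) x‖ ^ 2
        = (fun y => (c * l) ^ 2 * ‖Pi ψ D A y‖ ^ 2) (l • x) := by
      intro x
      simp only
      rw [Pi_sc, norm_smul, mul_pow, Real.norm_eq_abs, sq_abs]
    simp only [e]
    rw [int_sc (fun y => (c * l) ^ 2 * ‖Pi ψ D A y‖ ^ 2) l hl, integral_const_mul, mul_pow, hc2,
      smul_eq_mul]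
    field_simp
  · unfold mag
    have e : ∀ x : R3, ∑ j, (l ^ 2 * B j (l • x)) ^ 2
        = (fun y => l ^ 4 * ∑ j, (B j y) ^ 2) (l • x) := by
      intro x
      simp only
      rw [Finset.mul_sum]
      refine Finset.sum_congr rfl fun j _ => ?_
      ring
    simp only [e]
    rw [int_sc (fun y => l ^ 4 * ∑ j, (B j y) ^ 2) l hl, integral_const_mul, smul_eq_mul]
    field_simp
  · unfold cou
    have e : ∀ x : R3, ‖c • ψ (l • x)‖ ^ 2 / ‖x‖
        = (fun y => (c ^ 2 * l) * (‖ψ y‖ ^ 2 / ‖y‖)) (l • x) := by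
      intro x
      simp only
      rw [norm_smul, norm_smul, mul_pow, Real.norm_eq_abs, Real.norm_eq_abs, sq_abs,
        abs_of_pos hl]
      field_simp
    simp only [e]
    rw [int_sc (fun y => (c ^ 2 * l) * (‖ψ y‖ ^ 2 / ‖y‖)) l hl, integral_const_mul, hc2,
      smul_eq_mul]
    field_simp

end

end Helper34.PC
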